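import Mathlib

namespace Pool.Agent.H.MP_44eb6b_gt.A

open Set Function Topology Filter TopologicalSpace

variable {K : Type} [TopologicalSpace K]

def Cyl (V : Set ℕ) (S : Set (ℕ → K)) : Prop := ∀ b ∈ S, ∀ c : ℕ → K, (∀ i ∈ V, c i = b i) → c ∈ S

def Gen (X : Set K) (V : Set ℕ) (C : Set K) (b : ℕ → K) : Prop :=
  InjOn b V ∧ ∀ i ∈ V, b i ∈ X ∧ b i ∉ C

omit [TopologicalSpace K] in
lemma Cyl.compl {V : Set ℕ} {S : Set (ℕ → K)} (h : Cyl V S) : Cyl V Sᶜ :=
  fun b hb c hc k => hb (h c k b fun i hi => (hc i hi).symm)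

lemma Cyl.closure {V : Set ℕ} {S : Set (ℕ → K)} (h : Cyl V S) : Cyl V (closure S) := by
  classical
  intro b hb c hc
  have : V.piecewise b c = c := funext fun i => by by_cases l : i ∈ V <;> simp [l, hc]
  rw [← this]
  refine map_mem_closure (f := fun z => V.piecewise z c) (continuous_pi fun i => ?_) hb
    fun z hz => h z hz _ fun i hi => by simp [hi]
  by_cases l : i ∈ V <;> simp only [piecewise, l, if_true, if_false] <;> fun_prop

lemma Cyl.interior {V : Set ℕ} {S : Set (ℕ → K)} (h : Cyl V S) : Cyl V (interior S) := by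
  rw [interior_eq_compl_closure_compl]; exact h.compl.closure.compl

lemma basis {U : Set (ℕ → K)} (hU : IsOpen U) {a : ℕ → K} (ha : a ∈ U) :
    ∃ k V, IsOpen V ∧ a ∈ V ∧ V ⊆ U ∧ ∀ m, k ≤ m → Cyl (Iio m) V := by
  obtain ⟨I, u, h1, h2⟩ := isOpen_pi_iff.1 hU a ha
  refine ⟨I.sup id + 1, _, isOpen_set_pi I.finite_toSet fun i hi => (h1 i hi).1,
    fun i hi => (h1 i hi).2, h2, fun m hm b hb c hc i hi => ?_⟩
  rw [hc i ((Nat.lt_succ_of_le (Finset.le_sup (f := id) hi)).trans_le hm)]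
  exact hb i hi

lemma fresh [T1Space K] [∀ x : K, NeBot (𝓝[≠] x)] {Y : Set K} (hY : Dense Y) {O : Set (ℕ → K)}
    (hO : IsOpen O) (b : ℕ → K) (k : ℕ) (h : ∃ x, update b k x ∈ O) :
    ∃ x ∈ Y, x ∉ b '' Iio k ∧ update b k x ∈ O := by
  obtain ⟨x, h1, h2⟩ := (hY.diff_finite ((finite_Iio k).image b)).inter_open_nonempty _
    (hO.preimage (continuous_const.update k continuous_id)) h
  exact ⟨x, h2.1, h2.2, h1⟩

omit [TopologicalSpace K] in
lemma Gen.up {X C : Set K} {k : ℕ} {b : ℕ → K} (h : Gen X (Iio k) C b) {x : K} (h1 : x ∈ X)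
    (h2 : x ∉ C) (h3 : x ∉ b '' Iio k) : Gen X (Iio (k + 1)) C (update b k x) := by
  have e : ∀ i < k, update b k x i = b i := fun i hi => update_of_ne hi.ne _ _
  refine ⟨fun i hi j hj l => ?_, fun i hi => ?_⟩
  · rcases (Nat.lt_succ_iff.1 hi).eq_or_lt with rfl | p <;>
      rcases (Nat.lt_succ_iff.1 hj).eq_or_lt with rfl | q
    · rfl
    · exact (h3 ⟨j, q, by rw [← e j q, ← l, update_self]⟩).elim
    · exact (h3 ⟨i, p, by rw [← e i p, l, update_self]⟩).elim
    · exact h.1 p q (by rw [← e i p, ← e j q, l])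
  · rcases (Nat.lt_succ_iff.1 hi).eq_or_lt with rfl | p
    · rw [update_self]; exact ⟨h1, h2⟩
    · rw [e i p]; exact h.2 i p

lemma dens [T1Space K] [∀ x : K, NeBot (𝓝[≠] x)] {Y : Set K} (hY : Dense Y) {O : Set (ℕ → K)}
    (hO : IsOpen O) (hn : O.Nonempty) (k : ℕ) : ∃ b ∈ O, Gen Y (Iio k) ∅ b := by
  induction k with
  | zero => exact hn.imp fun b hb => ⟨hb, by simp [Gen]⟩
  | succ k ih =>
    obtain ⟨b, h1, h2⟩ := ih
    obtain ⟨x, x1, x2, x3⟩ := fresh hY hO b k ⟨b k, by simpa using h1⟩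
    exact ⟨_, x3, h2.up x1 id x2⟩

lemma stab {Y : Type} [TopologicalSpace Y] [SeparableSpace Y] {α : Type} (A : Set α → Set Y)
    (hA : ∀ C D, C ⊆ D → A D ⊆ A C) : ∃ C : Set α, C.Countable ∧
      ∀ D : Set α, D.Countable → interior (closure (A C)) ⊆ closure (A D) := by
  obtain ⟨S, s1, s2⟩ := exists_countable_dense Y
  have : ∀ y, ∃ C : Set α, C.Countable ∧
      ((∃ D : Set α, D.Countable ∧ y ∉ closure (A D)) → y ∉ closure (A C)) := fun y => by
    by_cases h : ∃ D : Set α, D.Countable ∧ y ∉ closure (A D)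
    · obtain ⟨D, h1, h2⟩ := h; exact ⟨D, h1, fun _ => h2⟩
    · exact ⟨∅, countable_empty, fun k => (h k).elim⟩
  choose f f1 f2 using this
  refine ⟨⋃ y ∈ S, f y, s1.biUnion fun y _ => f1 y, fun D hD y hy => by_contra fun k => ?_⟩
  obtain ⟨z, z1, z2⟩ := s2.inter_open_nonempty _
    (isOpen_interior.inter isClosed_closure.isOpen_compl) ⟨y, hy, k⟩
  exact f2 z ⟨D, hD, z1.2⟩
    (closure_mono (hA _ _ (subset_biUnion_of_mem z2)) (interior_subset z1.1))

lemma cl {α : Type} {T : Set α} (h : T.Countable) : {l : List α | ∀ c ∈ l, c ∈ T}.Countable := by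
  haveI := h.to_subtype
  refine (countable_range (List.map (Subtype.val : T → α))).mono fun l hl => ?_
  induction l with
  | nil => exact ⟨[], rfl⟩
  | cons c l ih =>
    obtain ⟨m, hm⟩ := ih fun d hd => hl d (List.mem_cons_of_mem _ hd)
    exact ⟨⟨c, hl c List.mem_cons_self⟩ :: m, by simp [hm]⟩

lemma clo {α : Type} (γ : List α → Set α) (h : ∀ l, (γ l).Countable) {T : Set α}
    (hT : T.Countable) :
    ∃ S : Set α, T ⊆ S ∧ S.Countable ∧ ∀ l, (∀ c ∈ l, c ∈ S) → γ l ⊆ S := by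
  let C : ℕ → Set α := fun n => n.rec T fun _ D => D ∪ ⋃ l ∈ {l : List α | ∀ c ∈ l, c ∈ D}, γ l
  have h1 : ∀ n, (C n).Countable := fun n => n.rec hT fun n ih =>
    ih.union ((cl ih).biUnion fun l _ => h l)
  have h2 : Monotone C := monotone_nat_of_le_succ fun n => subset_union_left
  refine ⟨⋃ n, C n, subset_iUnion C 0, countable_iUnion h1, fun l hl => ?_⟩
  have : ∃ n, ∀ c ∈ l, c ∈ C n := by
    induction l with
    | nil => exact ⟨0, by simp⟩
    | cons c l ih =>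
      obtain ⟨n, hn⟩ := ih fun d hd => hl d (List.mem_cons_of_mem _ hd)
      obtain ⟨m, hm⟩ := mem_iUnion.1 (hl c List.mem_cons_self)
      exact ⟨max n m, List.forall_mem_cons.2
        ⟨h2 (le_max_right _ _) hm, fun d hd => h2 (le_max_left _ _) (hn d hd)⟩⟩
  obtain ⟨n, hn⟩ := this
  exact fun x hx => mem_iUnion.2 ⟨n + 1, .inr (mem_biUnion hn hx)⟩

def ev (l : List (K ⊕ ℕ)) (b : ℕ → K) (i : ℕ) : K := Sum.elim id b (l.getD i (.inr 0))

def Val (X : Set K) (l : List (K ⊕ ℕ)) : Prop :=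
  ∀ i < l.length, Sum.elim (· ∈ X) (· ≤ i) (l.getD i (.inr 0))

lemma evc (l : List (K ⊕ ℕ)) : Continuous (ev l) := continuous_pi fun i => by
  unfold ev
  cases l.getD i (.inr 0)
  · exact continuous_const
  · exact continuous_apply _

omit [TopologicalSpace K] in
lemma ev1 {X : Set K} {l : List (K ⊕ ℕ)} (h : Val X l) {b c : ℕ → K}
    (k : ∀ i < l.length, c i = b i) (m : List (K ⊕ ℕ)) {i : ℕ} (hi : i < l.length) :
    ev (l ++ m) c i = ev l b i := by
  have := h i hi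
  unfold ev
  rw [List.getD_append _ _ _ _ hi]
  generalize l.getD i (.inr 0) = s at this
  cases s
  · rfl
  · exact k _ (lt_of_le_of_lt this hi)

omit [TopologicalSpace K] in
lemma Val.up {X : Set K} {l : List (K ⊕ ℕ)} (h : Val X l) {c : K ⊕ ℕ}
    (k : Sum.elim (· ∈ X) (· ≤ l.length) c) : Val X (l ++ [c]) := fun i hi => by
  rcases (Nat.lt_succ_iff.1 (by simpa using hi : i < l.length + 1)).eq_or_lt with rfl | p
  · simpa using k
  · rw [List.getD_append _ _ _ _ p]; exact h i p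

end Pool.Agent.H.MP_44eb6b_gt.A
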