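import Pool.Agent.H.MP_44eb6b_gt.A

namespace Pool.Agent.H.MP_44eb6b_gt.B

open Set Function Topology Filter TopologicalSpace Pool.Agent.H.MP_44eb6b_gt.A

variable {K : Type} [TopologicalSpace K]

omit [TopologicalSpace K] in
lemma step {X C : Set K} (h1 : ∀ D : Set K, D.Finite → ∃ x ∈ X, x ∉ C ∧ x ∉ D)
    {l : List (K ⊕ ℕ)} (hl : Val X l) {a b : ℕ → K} (ha : ∀ i, a i ∈ X)
    (hb : Gen X (Iio l.length) C b) (h : ∀ i < l.length, a i = ev l b i) :
    ∃ c x, Sum.elim (fun y => y ∈ X ∧ y ∈ C) (· ≤ l.length) c ∧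
      Gen X (Iio (l.length + 1)) C (update b l.length x) ∧
      ∀ i < l.length + 1, a i = ev (l ++ [c]) (update b l.length x) i := by
  have key : ∀ c x, a l.length = Sum.elim id (update b l.length x) c →
      ∀ i < l.length + 1, a i = ev (l ++ [c]) (update b l.length x) i := fun c x k i hi => by
    rcases (Nat.lt_succ_iff.1 hi).eq_or_lt with rfl | p
    · simpa [ev] using k
    · rw [ev1 hl (fun j hj => update_of_ne hj.ne _ _) _ p, h i p]
  obtain ⟨x, x1, x2, x3⟩ := h1 _ ((finite_Iio l.length).image b)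
  by_cases k : a l.length ∈ C
  · exact ⟨.inl (a l.length), x, ⟨ha _, k⟩, hb.up x1 x2 x3, key _ _ rfl⟩
  by_cases m : a l.length ∈ b '' Iio l.length
  · obtain ⟨j, j1, j2⟩ := m
    exact ⟨.inr j, x, le_of_lt j1, hb.up x1 x2 x3, key _ _ (by simp [(mem_Iio.1 j1).ne, j2])⟩
  · exact ⟨.inr l.length, a l.length, le_rfl, hb.up (ha _) k m, key _ _ (by simp)⟩

theorem sep [T1Space K] [∀ x : K, NeBot (𝓝[≠] x)] [Nonempty K] {X : Set K}
    (h1 : ∀ C : Set K, C.Countable → ∃ E ⊆ X \ C, E.Countable ∧ Dense E)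
    (h2 : ∀ k, ∀ U : Set (ℕ → K), IsOpen U → Dense U → Cyl (Iio k) U →
      ∃ C : Set K, C.Countable ∧ ∀ b, Gen X (Iio k) C b → b ∈ U)
    {F : Set (ℕ → K)} (f1 : ∀ a ∈ F, ∀ i, a i ∈ X)
    (f2 : ∀ a, (∀ i, a i ∈ X) → a ∈ closure F → a ∈ F) :
    ∃ S ⊆ F, S.Countable ∧ F ⊆ closure S := by
  classical
  haveI : SeparableSpace K := (h1 ∅ countable_empty).elim fun E h => ⟨⟨E, h.2⟩⟩
  let A : List (K ⊕ ℕ) → Set K → Set (ℕ → K) := fun l C =>
    {b | Val X l ∧ Gen X (Iio l.length) C b ∧ ∃ a ∈ F, ∀ i < l.length, a i = ev l b i}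
  have Am : ∀ l C D, C ⊆ D → A l D ⊆ A l C := fun l C D h b hb =>
    ⟨hb.1, ⟨hb.2.1.1, fun i hi => ⟨(hb.2.1.2 i hi).1, fun k => (hb.2.1.2 i hi).2 (h k)⟩⟩, hb.2.2⟩
  have Ac : ∀ l C, Cyl (Iio l.length) (A l C) := by
    rintro l C b ⟨b1, b2, a, a1, a2⟩ c hc
    refine ⟨b1, ⟨fun i hi j hj k => b2.1 hi hj (by rw [← hc i hi, ← hc j hj, k]),
      fun i hi => hc i hi ▸ b2.2 i hi⟩, a, a1, fun i hi => ?_⟩
    rw [a2 i hi, ← ev1 b1 hc [] hi, List.append_nil]
  choose C c1 c2 using fun l => stab (A l) (Am l)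
  let O : List (K ⊕ ℕ) → Set (ℕ → K) := fun l => interior (closure (A l (C l)))
  have Oc : ∀ l, Cyl (Iio l.length) (O l) := fun l => (Ac l _).closure.interior
  choose D d1 d2 using fun l => h2 l.length (O l ∪ (closure (A l (C l)))ᶜ)
    (isOpen_interior.union isClosed_closure.isOpen_compl)
    (by
      have := (isClosed_closure (s := A l (C l))).frontier_eq ▸
        interior_frontier (isClosed_closure (s := A l (C l)))
      refine interior_eq_empty_iff_dense_compl.1 this |>.mono fun x hx => ?_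
      by_cases k : x ∈ closure (A l (C l))
      · exact .inl (by_contra fun m => hx ⟨k, m⟩)
      · exact .inr k)
    fun b hb c hc => hb.imp (Oc l b · c hc) ((Ac l _).closure.compl b · c hc)
  obtain ⟨T, t1, t2, t3⟩ := clo (fun l => Sum.inl '' (C l ∪ D l))
    (fun l => ((c1 l).union (d1 l)).image _) (countable_range (Sum.inr : ℕ → K ⊕ ℕ))
  let C0 : Set K := Sum.inl ⁻¹' T
  have t4 : C0.Countable := t2.preimage Sum.inl_injective
  have AO : ∀ l, (∀ c ∈ l, c ∈ T) → A l C0 ⊆ O l := fun l hl b hb =>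
    (d2 l b (Am l _ _ (fun x hx => t3 l hl ⟨x, .inr hx, rfl⟩) hb).2.1).resolve_right
      fun k => k (subset_closure (Am l _ _ (fun x hx => t3 l hl ⟨x, .inl hx, rfl⟩) hb))
  have hf : ∀ D : Set K, D.Finite → ∃ x ∈ X, x ∉ C0 ∧ x ∉ D := fun D hD => by
    obtain ⟨E, e1, -, e2⟩ := h1 _ (t4.union hD.countable)
    obtain ⟨x, hx⟩ := e2.nonempty
    exact ⟨x, (e1 hx).1, fun k => (e1 hx).2 (.inl k), fun k => (e1 hx).2 (.inr k)⟩
  have st : ∀ l, (∀ c ∈ l, c ∈ T) → Val X l → ∀ a ∈ F, ∀ b, Gen X (Iio l.length) C0 b →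
      (∀ i < l.length, a i = ev l b i) → ∃ c x, (∀ d ∈ l ++ [c], d ∈ T) ∧ Val X (l ++ [c]) ∧
      Gen X (Iio (l ++ [c]).length) C0 (update b l.length x) ∧
      ∀ i < (l ++ [c]).length, a i = ev (l ++ [c]) (update b l.length x) i := by
    intro l l1 l2 a ha b b1 b2
    obtain ⟨c, x, k1, k2, k3⟩ := step hf l2 (f1 a ha) b1 b2
    refine ⟨c, x, ?_, l2.up ?_, by simpa using k2, by simpa using k3⟩
    · simp only [List.mem_append, List.mem_singleton]
      rintro d (h | rfl)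
      · exact l1 d h
      · cases d
        · exact k1.2
        · exact t1 ⟨_, rfl⟩
    · cases c
      · exact k1.1
      · exact k1
  let Q : List (K ⊕ ℕ) → Set (ℕ → K) := fun l => {b | ∃ c x, (∀ d ∈ l ++ [c], d ∈ T) ∧
    Val X (l ++ [c]) ∧ update b l.length x ∈ O (l ++ [c])}
  have Qo : ∀ l, IsOpen (Q l) := fun l => by
    simp only [Q, setOf_exists, setOf_and]
    exact isOpen_iUnion fun c => isOpen_iUnion fun x => isOpen_const.inter (isOpen_const.inter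
      (isOpen_interior.preimage (continuous_id.update _ continuous_const)))
  have hG : ∀ l, ∃ G : Set K, G.Countable ∧ ((∀ c ∈ l, c ∈ T) →
      ∀ b, Gen X (Iio l.length) G b → b ∈ O l → b ∈ Q l) := fun l => by
    by_cases hl : ∀ c ∈ l, c ∈ T
    swap
    · exact ⟨∅, countable_empty, fun k => (hl k).elim⟩
    have hQ : O l ⊆ closure (Q l) := (c2 l _ t4).trans (closure_mono fun b hb => by
      obtain ⟨b1, b2, a, a1, a2⟩ := hb
      obtain ⟨c, x, k1, k2, k3, k4⟩ := st l hl b1 a a1 b b2 a2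
      exact ⟨c, x, k1, k2, AO _ k1 ⟨k2, k3, a, a1, k4⟩⟩)
    obtain ⟨G, g1, g2⟩ := h2 l.length (Q l ∪ (closure (O l))ᶜ)
      ((Qo l).union isClosed_closure.isOpen_compl) (fun x => by
        by_cases k : x ∈ closure (O l)
        · exact closure_mono subset_union_left (closure_minimal hQ isClosed_closure k)
        · exact subset_closure (.inr k)) (fun b hb e he => hb.imp (fun ⟨c, x, k1, k2, k3⟩ =>
          ⟨c, x, k1, k2, Oc _ _ k3 _ fun i hi => by
            by_cases q : i = l.length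
            · simp [q]
            · rw [update_of_ne q, update_of_ne q]
              exact he i (lt_of_le_of_ne (Nat.lt_succ_iff.1 (by simpa using hi)) q)⟩)
          ((Oc l).closure.compl b · e he))
    exact ⟨G, g1, fun _ b b1 b2 => (g2 b b1).resolve_right fun k => k (subset_closure b2)⟩
  choose G g1 g2 using hG
  let C1 : Set K := ⋃ l ∈ {l : List (K ⊕ ℕ) | ∀ c ∈ l, c ∈ T}, G l
  obtain ⟨E, e1, e2, e3⟩ := h1 C1 ((cl t2).biUnion fun l _ => g1 l)
  let St := {s : List (K ⊕ ℕ) × (ℕ → K) // (∀ c ∈ s.1, c ∈ T) ∧ Val X s.1 ∧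
    Gen X (Iio s.1.length) C1 s.2 ∧ s.2 ∈ O s.1}
  have nx : ∀ s : St, ∃ t : St, t.1.1.length = s.1.1.length + 1 ∧
      ∀ i < s.1.1.length, ev t.1.1 t.1.2 i = ev s.1.1 s.1.2 i := by
    rintro ⟨⟨l, b⟩, s1, s2, s3, s4⟩
    obtain ⟨c, x, k1, k2, k3⟩ := g2 l s1 b
      ⟨s3.1, fun i hi => ⟨(s3.2 i hi).1, fun k => (s3.2 i hi).2 (mem_biUnion s1 k)⟩⟩ s4
    obtain ⟨y, y1, y2, y3⟩ := fresh e3 isOpen_interior b l.length ⟨x, k3⟩
    exact ⟨⟨(l ++ [c], update b l.length y), k1, k2,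
      by simpa using s3.up (e1 y1).1 (e1 y1).2 y2, y3⟩, by simp,
      fun i hi => ev1 s2 (fun j hj => update_of_ne hj.ne _ _) _ hi⟩
  choose nx n1 n2 using nx
  have ext : ∀ s : St, ∃ a ∈ F, ∀ i < s.1.1.length, a i = ev s.1.1 s.1.2 i := fun s => by
    let t : ℕ → St := fun n => nx^[n] s
    have ht : ∀ n, t (n + 1) = nx (t n) := fun n => iterate_succ_apply' _ _ _
    have t5 : ∀ n, (t n).1.1.length = s.1.1.length + n := fun n =>
      n.rec rfl fun n ih => by rw [ht, n1, ih, add_assoc]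
    have t6 : ∀ n m, n ≤ m → ∀ i < (t n).1.1.length,
        ev (t m).1.1 (t m).1.2 i = ev (t n).1.1 (t n).1.2 i := fun n m h i hi => by
      induction h with
      | refl => rfl
      | step h ih => rw [ht, n2 _ _ (by have := t5 n; have : n ≤ _ := h; rw [t5]; omega), ih]
    have t7 : ∀ n, ∀ i < (t n).1.1.length,
        ev (t (i + 1)).1.1 (t (i + 1)).1.2 i = ev (t n).1.1 (t n).1.2 i := fun n i hi =>
      (le_total n (i + 1)).elim (t6 _ _ · i hi) fun h => (t6 _ _ h i (by rw [t5]; omega)).symm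
    refine ⟨fun i => ev (t (i + 1)).1.1 (t (i + 1)).1.2 i, f2 _ (fun i => ?_)
      (mem_closure_iff.2 fun U u1 u2 => ?_), t7 0⟩
    · obtain ⟨-, k1, k2, -⟩ := (t (i + 1)).2
      have hi : i < (t (i + 1)).1.1.length := by rw [t5]; omega
      have := k1 i hi
      unfold ev
      generalize (t (i + 1)).1.1.getD i (.inr 0) = c at this
      cases c
      · exact this
      · exact (k2.2 _ (lt_of_le_of_lt this hi)).1
    · obtain ⟨k, V, v1, v2, v3, v4⟩ := basis u1 u2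
      have v5 := v4 (t k).1.1.length (by rw [t5]; omega)
      obtain ⟨b, b1, -, -, a, a1, a2⟩ := mem_closure_iff.1 (interior_subset (t k).2.2.2.2) _
        (v1.preimage (evc (t k).1.1)) (v5 _ v2 _ fun i hi => (t7 k i hi).symm)
      exact ⟨a, v3 (v5 _ b1 _ a2), a1⟩
  have pk : ∀ q : Σ k, Fin k → ↥(C0 ∪ E), ∃ S ⊆ F, S.Countable ∧
      ((∃ a ∈ F, ∀ i : Fin q.1, a i = q.2 i) → ∃ a ∈ S, ∀ i : Fin q.1, a i = q.2 i) := fun q => by
    by_cases h : ∃ a ∈ F, ∀ i : Fin q.1, a i = q.2 i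
    · obtain ⟨a, a1, a2⟩ := h
      exact ⟨{a}, by simpa, countable_singleton _, fun _ => ⟨a, rfl, a2⟩⟩
    · exact ⟨∅, empty_subset _, countable_empty, fun k => (h k).elim⟩
  choose S s1 s2 s3 using pk
  haveI := (t4.union e2).to_subtype
  refine ⟨⋃ q, S q, iUnion_subset s1, countable_iUnion s2,
    fun a ha => mem_closure_iff.2 fun U u1 u2 => ?_⟩
  obtain ⟨k, V, v1, v2, v3, v4⟩ := basis u1 u2
  have v5 := v4 k le_rfl
  obtain ⟨l, b, rfl, l1, l2, l3, l4⟩ : ∃ l b, l.length = k ∧ (∀ c ∈ l, c ∈ T) ∧ Val X l ∧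
      Gen X (Iio l.length) C0 b ∧ ∀ i < l.length, a i = ev l b i := by
    clear v4 v5
    induction k with
    | zero => exact ⟨[], a, rfl, by simp, by simp [Val], by simp [Gen], by simp⟩
    | succ k ih =>
      obtain ⟨l, b, rfl, l1, l2, l3, l4⟩ := ih
      obtain ⟨c, x, k⟩ := st l l1 l2 a ha b l3 l4
      exact ⟨_, _, by simp, k⟩
  obtain ⟨e, ⟨k1, k2⟩, k3⟩ := dens e3 (isOpen_interior.inter (v1.preimage (evc l)))
    ⟨b, AO l l1 ⟨l2, l3, a, ha, l4⟩, v5 _ v2 _ fun i hi => (l4 i hi).symm⟩ l.length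
  obtain ⟨a', a1, a2⟩ := ext ⟨(l, e), l1, l2, ⟨k3.1, fun i hi => e1 (k3.2 i hi).1⟩, k1⟩
  have a3 : ∀ i < l.length, a' i ∈ C0 ∪ E := fun i hi => by
    have := l2 i hi
    have m : l.getD i (.inr 0) ∈ T := by
      rw [List.getD_eq_getElem _ _ hi]; exact l1 _ (List.getElem_mem _)
    rw [a2 i hi]
    simp only [ev]
    generalize l.getD i (.inr 0) = c at this m
    cases c
    · exact .inl m
    · exact .inr (k3.2 _ (lt_of_le_of_lt this hi)).1
  obtain ⟨z, z1, z2⟩ := s3 ⟨l.length, fun i => ⟨a' i, a3 i i.2⟩⟩ ⟨a', a1, fun _ => rfl⟩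
  exact ⟨z, v3 (v5 _ k2 _ fun i hi => (z2 ⟨i, hi⟩).trans (a2 i hi)), mem_iUnion.2 ⟨_, z1⟩⟩

end Pool.Agent.H.MP_44eb6b_gt.B
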