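import Pool.Agent.H.MP_44eb6b_gt.A
import Pool.Agent.H.MP_3bc7a7_gt.A

namespace Pool.Agent.H.MP_44eb6b_gt.C

open Set Function Topology Filter TopologicalSpace Cardinal Pool.Agent.H.MP_44eb6b_gt.A
open Pool.Agent.H.MP_3bc7a7_gt.A (J cI)

abbrev Co := ℕ ⊕ J
abbrev K := Co → Bool
abbrev I := J ×ₗ ℕ
abbrev Cn := Finset (ℕ × Co) × Finset (ℕ × Co)
abbrev Lb := (Finset Co × Finset Co) × (ℕ × Finset (Finset ℕ)) × Bool

def low (δ : J) : Set Co := {c | Sum.elim (fun _ => True) (· < δ) c}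

def CC (p : ℕ → K) : Prop :=
  ∀ n, (∀ m < n, p (n + 1) (.inl m) = p 0 (.inl m)) ∧ p (n + 1) (.inl n) ≠ p 0 (.inl n)

lemma lowc (δ : J) : (low δ).Countable :=
  ((countable_range Sum.inl).union ((cI δ).image Sum.inr)).mono fun c hc => by
    cases c
    · exact .inl ⟨_, rfl⟩
    · exact .inr ⟨_, mem_Iic.2 (le_of_lt hc), rfl⟩

lemma bnd {C : Set J} (h : C.Countable) : ∃ δ, ∀ α ∈ C, α < δ := by
  by_contra! k
  have : (Set.univ : Set J).Countable := (h.biUnion fun a _ => cI a).mono fun a _ =>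
    (k a).elim fun b hb => mem_biUnion hb.1 hb.2
  rw [← le_aleph0_iff_set_countable] at this
  simp at this

lemma bas {ι : Type} {U : Set (ι → Bool)} (hU : IsOpen U) {b : ι → Bool} (hb : b ∈ U) :
    ∃ u : Finset ι, ∀ y : ι → Bool, (∀ c ∈ u, y c = b c) → y ∈ U := by
  obtain ⟨u, v, h1, h2⟩ := isOpen_pi_iff.1 hU b hb
  exact ⟨u, fun y hy => h2 fun c hc => hy c hc ▸ (h1 c hc).2⟩

lemma opn {ι Y : Type} [TopologicalSpace Y] (u : Finset ι) (f : ι → Y → Bool) (g : ι → Bool)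
    (h : ∀ c, Continuous (f c)) : IsOpen {y | ∀ c ∈ u, f c y = g c} := by
  simp only [setOf_forall]
  exact isOpen_biInter_finset fun c _ => (isOpen_discrete {g c}).preimage (h c)

def UU (e : ℕ → Cn) : Set (ℕ → K) :=
  ⋃ n, {b | ∀ c ∈ (e n).1, b c.1 c.2 = by classical exact decide (c ∈ (e n).2)}

lemma UUo (e : ℕ → Cn) : IsOpen (UU e) :=
  isOpen_iUnion fun _ => opn _ (fun (c : ℕ × Co) (b : ℕ → K) => b c.1 c.2) _ fun _ => by fun_prop

lemma code [SeparableSpace K] {U : Set (ℕ → K)} (h1 : IsOpen U) (h2 : Dense U) :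
    ∃ e, UU e ⊆ U ∧ Dense (UU e) := by
  classical
  obtain ⟨D, d1, d2⟩ := exists_countable_dense (ℕ → K)
  have d3 := h2.inter_of_isOpen_left d2 h1
  obtain ⟨f, hf⟩ := (d1.mono (inter_subset_right (s := U))).exists_eq_range d3.nonempty
  choose u hu using fun n => bas (h1.preimage (f := fun (z : ℕ × Co → Bool) i c => z (i, c))
    (by fun_prop)) (b := uncurry (f n)) (hf.ge ⟨n, rfl⟩).1
  refine ⟨fun n => (u n, (u n).filter fun c => f n c.1 c.2), iUnion_subset fun n b hb =>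
    hu n (uncurry b) fun c hc => (hb c hc).trans (by simp [hc, uncurry]),
    (hf ▸ d3).mono (range_subset_iff.2 fun n => mem_iUnion.2 ⟨n, fun c hc => by
      have : c ∈ u n := hc
      simp [this]⟩)⟩

lemma dcl (h : continuum.{0} = aleph 1) : ∃ dc : ℕ × Finset (Finset ℕ) → J → Bool,
    ∀ (s : Finset J) (y : J → Bool), ∃ c, ∀ α ∈ s, dc c α = y α := by
  classical
  obtain ⟨r⟩ : Nonempty (J ≃ (ℕ → Bool)) := Cardinal.eq.1 (by simp [← h])
  have : ∀ p : J × J, ∃ d, r p.1 d = r p.2 d → p.1 = p.2 := fun p => by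
    by_contra! k
    exact (k 0).2 (r.injective (funext fun d => (k d).1))
  choose d hd using this
  refine ⟨fun c α => decide ((Finset.range c.1).filter (r α ·) ∈ c.2), fun s y =>
    ⟨((s ×ˢ s).sup d + 1, (s.filter (y ·)).image fun α =>
      (Finset.range ((s ×ˢ s).sup d + 1)).filter (r α ·)), fun α hα => ?_⟩⟩
  rw [Bool.eq_iff_iff, decide_eq_true_iff, Finset.mem_image]
  refine ⟨fun ⟨β, b1, b2⟩ => ?_, fun k => ⟨α, by simp [hα, k], rfl⟩⟩
  rw [Finset.mem_filter] at b1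
  have := Finset.ext_iff.1 b2 (d (β, α))
  have m : d (β, α) < (s ×ˢ s).sup d + 1 :=
    Nat.lt_succ_of_le (Finset.le_sup (f := d) (Finset.mem_product.2 ⟨b1.1, hα⟩))
  simp only [Finset.mem_filter, Finset.mem_range, m, true_and, ← Bool.eq_iff_iff] at this
  exact (show β = α from hd (β, α) this) ▸ b1.2

lemma stage (𝒢 : Set (Set K)) (δ : J) (u : Finset Co) (w : K) (g : J → Bool) :
    ∃ x : K, (𝒢.Countable → ∀ G ∈ 𝒢, IsOpen G → Dense G →
      (∀ y ∈ G, ∀ z : K, (∀ c ∈ low δ, z c = y c) → z ∈ G) → x ∈ G) ∧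
      (∀ c ∈ u, c ∈ low δ → x c = w c) ∧ ∀ α, δ ≤ α → x (.inr α) = g α := by
  classical
  obtain ⟨y, y1, y2⟩ : ∃ y : K, (∀ c ∈ u, y c = w c) ∧
      (𝒢.Countable → ∀ G ∈ 𝒢, IsOpen G → Dense G → y ∈ G) := by
    by_cases h : 𝒢.Countable
    · obtain ⟨y, h1, h2⟩ := (dense_sInter_of_isOpen (S := {G ∈ 𝒢 | IsOpen G ∧ Dense G})
        (fun G k => k.2.1) (h.mono (sep_subset _ _)) fun G k => k.2.2).inter_open_nonempty _
        (opn u (fun c (y : K) => y c) w fun _ => by fun_prop) ⟨w, fun _ _ => rfl⟩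
      exact ⟨y, h1, fun _ G g1 g2 g3 => h2 G ⟨g1, g2, g3⟩⟩
    · exact ⟨w, fun _ _ => rfl, fun k => (h k).elim⟩
  refine ⟨(low δ).piecewise y (Sum.elim (fun _ => false) g), fun h G g1 g2 g3 g4 =>
    g4 y (y2 h G g1 g2 g3) _ fun c hc => by simp [hc], fun c h1 h2 => by simp [h2, y1 c h1],
    fun α hα => ?_⟩
  rw [piecewise_eq_of_notMem _ _ _ (by simpa [low] using hα)]; rfl

def GG (e : ℕ → Cn) (W : Finset ℕ) (i : ℕ) (t : W → K) : Set K :=
  {x | ∃ b ∈ UU e, (∀ j : W, b j = t j) ∧ b i = x}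

def Fam (en : J → ℕ → Cn) (δ : J) (P : Set K) : Set (Set K) :=
  range (fun q : (Σ W : Finset ℕ, W → P) × ℕ × Iic δ =>
    GG (en q.2.2) q.1.1 q.2.1 fun j => q.1.2 j) ∪
    (fun p : K => {y : K | y ∘ Sum.inl ≠ p ∘ Sum.inl}) '' P

lemma Famc (en : J → ℕ → Cn) (δ : J) {P : Set K} (h : P.Countable) : (Fam en δ P).Countable := by
  haveI := h.to_subtype
  haveI := (cI δ).to_subtype
  exact (countable_range _).union (h.image _)

lemma SL [SeparableSpace K] {en : J → ℕ → Cn} (he : Surjective en) {x : I → K}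
    (hx : ∀ β : I, ∀ G ∈ Fam en (ofLex β).1 (x '' Iio β), IsOpen G → Dense G →
      (∀ y ∈ G, ∀ z : K, (∀ c ∈ low (ofLex β).1, z c = y c) → z ∈ G) → x β ∈ G) (V : Finset ℕ) :
    ∀ U : Set (ℕ → K), IsOpen U → Dense U → Cyl V U →
      ∃ C : Set K, C.Countable ∧ ∀ b, Gen (range x) V C b → b ∈ U := by
  classical
  induction V using Finset.strongInduction with | H V ih => ?_
  intro U u1 u2 u3
  rcases V.eq_empty_or_nonempty with rfl | hV
  · exact ⟨∅, countable_empty, fun b _ => u3 _ u2.nonempty.some_mem _ (by simp)⟩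
  obtain ⟨e, e1, e2⟩ := code u1 u2
  obtain ⟨ξ, rfl⟩ := he e
  obtain ⟨δ, hδ⟩ := bnd (((countable_iUnion fun n => ((en ξ n).1.finite_toSet.image
    Prod.snd).countable).preimage Sum.inr_injective).insert ξ)
  have h1 : ∀ b ∈ UU (en ξ), ∀ b' : ℕ → K, (∀ i, ∀ c ∈ low δ, b' i c = b i c) → b' ∈ UU (en ξ) := by
    rintro b ⟨_, ⟨n, rfl⟩, hn⟩ b' k
    refine mem_iUnion.2 ⟨n, fun c hc => (k _ _ ?_).trans (hn c hc)⟩
    obtain ⟨i, c | c⟩ := c
    · trivial
    · exact hδ c (.inr (mem_iUnion.2 ⟨n, _, hc, rfl⟩))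
  have h2 : ∀ (q : V × Finset (low δ) × Finset (low δ)), ∃ C : Set K, C.Countable ∧
      ∀ b, Gen (range x) (V.erase q.1) C b → ∃ b' ∈ UU (en ξ), (∀ j ∈ V.erase q.1, b' j = b j) ∧
        ∀ c ∈ q.2.1, b' q.1 c = decide (c ∈ q.2.2) := by
    rintro ⟨i, u, w⟩
    have o : IsOpen (UU (en ξ) ∩ {b | ∀ c ∈ u, b i c = decide (c ∈ w)}) :=
      (UUo _).inter (opn u (fun (c : low δ) (b : ℕ → K) => b i c) _ fun _ => by fun_prop)
    have pc : ∀ a : ℕ → K, Continuous fun z : ℕ → K => (V.erase i).piecewise z a := fun a =>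
      continuous_pi fun j => by
        by_cases l : j ∈ V.erase i <;> simp only [Finset.piecewise, l, if_true, if_false] <;> fun_prop
    refine ih _ (Finset.erase_ssubset i.2) {b | ∃ b' ∈ UU (en ξ), (∀ j ∈ V.erase i, b' j = b j) ∧
        ∀ c ∈ u, b' i c = decide (c ∈ w)} (isOpen_iff_forall_mem_open.2 ?_)
      (dense_iff_inter_open.2 fun W w1 ⟨a, ha⟩ => ?_) ?_
    · rintro b ⟨a, a1, a2, a3⟩
      refine ⟨_, fun z hz => ⟨_, hz.1, fun j hj => Finset.piecewise_eq_of_mem _ _ _ hj, hz.2⟩,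
        o.preimage (pc a), ?_⟩
      rw [mem_preimage, show (V.erase i).piecewise b a = a from funext fun j => by
        by_cases l : j ∈ V.erase i <;> simp [l, a2]]
      exact ⟨a1, a3⟩
    · obtain ⟨z, ⟨z1, z2⟩, z3⟩ := e2.inter_open_nonempty _ ((w1.preimage (pc a)).inter
        (opn u (fun (c : low δ) (b : ℕ → K) => b i c) (fun c => decide (c ∈ w)) fun _ => by fun_prop))
        ⟨update a i fun c => if h : c ∈ low δ then decide (⟨c, h⟩ ∈ w) else false, by
          rw [mem_preimage, show (V.erase i).piecewise _ a = a from funext fun j => by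
            by_cases l : j ∈ V.erase i
            · rw [Finset.piecewise_eq_of_mem _ _ _ l, update_of_ne (Finset.ne_of_mem_erase l)]
            · rw [Finset.piecewise_eq_of_notMem _ _ _ l]]
          exact ha, fun c _ => by simp⟩
      exact ⟨_, z1, z, z3, fun j hj => (Finset.piecewise_eq_of_mem _ _ _ hj).symm, z2⟩
    · rintro b ⟨a, a1, a2, a3⟩ c hc
      exact ⟨a, a1, fun j hj => (a2 j hj).trans (hc j hj).symm, a3⟩
  choose C c1 c2 using h2
  haveI := (lowc δ).to_subtype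
  haveI := (cI δ).to_subtype
  refine ⟨(⋃ q, C q) ∪ range fun q : Iic δ × ℕ => x (toLex (q.1.1, q.2)),
    (countable_iUnion c1).union (countable_range _), fun b hb => ?_⟩
  haveI : Nonempty I := ⟨toLex (δ, 0)⟩
  choose! t ht using fun i hi => (hb.2 i hi).1
  obtain ⟨i, i1, i2⟩ := V.exists_max_image t hV
  have i3 : δ < (ofLex (t i)).1 := not_le.1 fun k => (hb.2 i i1).2
    (.inr ⟨(⟨_, k⟩, (ofLex (t i)).2), ht i i1⟩)
  have i4 : ∀ j : V.erase i, b j ∈ x '' Iio (t i) := fun j => by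
    obtain ⟨j1, j2⟩ := Finset.mem_erase.1 j.2
    exact ⟨t j, lt_of_le_of_ne (i2 j j2) fun k => j1 (hb.1 j2 i1
      (by rw [← ht j j2, ← ht i i1, k])), ht j j2⟩
  have up : ∀ a ∈ UU (en ξ), (∀ j : V.erase i, a j = b j) → ∀ z, update a i z ∈ UU (en ξ) →
      z ∈ GG (en ξ) (V.erase i) i fun j => b j := fun a _ a2 z hz =>
    ⟨_, hz, fun j => by rw [update_of_ne (Finset.ne_of_mem_erase j.2), a2], update_self ..⟩
  have su : ∀ y ∈ GG (en ξ) (V.erase i) i fun j => b j, ∀ z : K, (∀ c ∈ low δ, z c = y c) →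
      z ∈ GG (en ξ) (V.erase i) i fun j => b j := by
    rintro _ ⟨a, a1, a2, rfl⟩ z hz
    refine up a a1 a2 z (h1 a a1 _ fun j c hc => ?_)
    by_cases l : j = i
    · rw [l, update_self, hz c hc]
    · rw [update_of_ne l]
  obtain ⟨a, a1, a2, a3⟩ := hx (t i) (GG (en ξ) (V.erase i) i fun j => b j)
    (.inl ⟨(⟨V.erase i, fun j => ⟨b j, i4 j⟩⟩, i, ⟨ξ, ((hδ ξ (.inl rfl)).trans i3).le⟩), rfl⟩)
    (isOpen_iff_forall_mem_open.2 (by
      rintro _ ⟨a, a1, a2, rfl⟩
      exact ⟨update a i ⁻¹' UU (en ξ), up a a1 a2,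
        (UUo _).preimage (continuous_const.update i continuous_id), by simpa using a1⟩))
    (dense_iff_inter_open.2 fun W w1 ⟨y, hy⟩ => by
      obtain ⟨u, hu⟩ := bas w1 hy
      obtain ⟨a, a1, a2, a3⟩ := c2 (⟨i, i1⟩, u.subtype (· ∈ low δ),
        (u.subtype (· ∈ low δ)).filter fun c => y c) b
        ⟨hb.1.mono (by simp), fun j hj => ⟨(hb.2 j (Finset.mem_of_mem_erase hj)).1, fun k =>
          (hb.2 j (Finset.mem_of_mem_erase hj)).2 (.inl (mem_iUnion.2 ⟨_, k⟩))⟩⟩
      refine ⟨(low δ).piecewise (a i) y, hu _ fun c hc => ?_,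
        su _ ⟨a, a1, fun j => a2 j j.2, rfl⟩ _ fun c hc => by simp [hc]⟩
      by_cases l : c ∈ low δ
      · simpa [l, hc] using a3 ⟨c, l⟩ (by simpa using hc)
      · simp [l])
    fun y hy z hz => su y hy z fun c hc => hz c (by
      cases c
      · trivial
      · exact lt_trans hc i3)
  refine u3 a (e1 a1) b fun j hj => ?_
  by_cases l : j = i
  · rw [l, a3, ht i i1]
  · exact (a2 ⟨j, Finset.mem_erase.2 ⟨l, hj⟩⟩).symm

theorem exX (h : continuum.{0} = aleph 1) : ∃ X : Set K,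
    (∀ C : Set K, C.Countable → ∃ E ⊆ X \ C, E.Countable ∧ Dense E) ∧
    (∀ k, ∀ U : Set (ℕ → K), IsOpen U → Dense U → Cyl (Iio k) U →
      ∃ C : Set K, C.Countable ∧ ∀ b, Gen X (Iio k) C b → b ∈ U) ∧
    (∀ p : ℕ → K, (∀ n, p n ∈ X) → CC p → {α | p 0 (.inr α) = true}.Countable ∨
      ∃ α, p 0 (.inr α) = true ∧ ∀ n, p (n + 1) (.inr α) = false) ∧
    ∀ α, ∃ p : ℕ → K, (∀ n, p n ∈ X) ∧ CC p ∧ p 0 (.inr α) = true ∧ Tendsto p atTop (𝓝 (p 0)) := by
  classical
  obtain ⟨en⟩ : Nonempty (J ≃ (ℕ → Cn)) := Cardinal.eq.1 (by simp [← h])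
  obtain ⟨tk⟩ : Nonempty (J ≃ (ℕ → I) × J) := Cardinal.eq.1 (by
    have : #I = continuum := (mk_congr ofLex).trans (by simp [← h])
    simp [← h, this])
  obtain ⟨dc, hdc⟩ := dcl h
  have hl : ∀ δ, ∃ f : ℕ → Lb, ∀ l : Lb, ↑l.1.1 ⊆ low δ → ↑l.1.2 ⊆ low δ → {n | f n = l}.Infinite := by
    intro δ
    haveI := (lowc δ).to_subtype
    obtain ⟨f, hf⟩ := exists_surjective_nat (((Finset (low δ) × Finset (low δ)) ×
      (ℕ × Finset (Finset ℕ)) × Bool) × ℕ)
    refine ⟨fun n => (((f n).1.1.1.map (.subtype _), (f n).1.1.2.map (.subtype _)), (f n).1.2),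
      fun l l1 l2 => Infinite.of_image (fun n => (f n).2) (infinite_univ.mono fun m _ => ?_)⟩
    obtain ⟨n, hn⟩ := hf (((l.1.1.subtype _, l.1.2.subtype _), l.2), m)
    refine ⟨n, ?_, by simp [hn]⟩
    simp only [mem_setOf_eq, hn]
    rw [Finset.subtype_map_of_mem l1, Finset.subtype_map_of_mem l2]
  choose lab hl using hl
  let lb : I → Lb := fun γ => lab (ofLex γ).1 (ofLex γ).2
  let Va : (ℕ → I) → Prop := fun a => ∃ z : ℕ → Bool, ∀ m,
    {n | .inl m ∈ (lb (a n)).1.1 ∧ decide (.inl m ∈ (lb (a n)).1.2) ≠ z m}.Finite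
  let col : I → J → Bool := fun γ α => if (lb γ).2.2 then false else
    if Va (tk α).1 ∧ γ ∈ range (tk α).1 then decide (γ = (tk α).1 0) else dc (lb γ).2.1 α
  choose st s1 s2 s3 using stage
  let g : I → Set K → K := fun β P => st (Fam en (ofLex β).1 P) (ofLex β).1 (lb β).1.1
    (fun c => decide (c ∈ (lb β).1.2)) (col β)
  let x : I → K := wellFounded_lt.fix fun β ih => g β (range fun γ : Iio β => ih γ γ.2)
  have hx : ∀ β, x β = g β (x '' Iio β) := fun β => by
    rw [image_eq_range]; exact wellFounded_lt.fix_eq _ β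
  have ci : ∀ β : I, (Iio β).Countable := fun β => by
    refine (((cI (ofLex β).1).prod (countable_univ (α := ℕ))).image toLex).mono fun γ hγ => ?_
    exact ⟨ofLex γ, ⟨(Prod.Lex.lt_iff.1 hγ).elim le_of_lt fun k => k.1.le, trivial⟩, rfl⟩
  have x1 : ∀ β : I, ∀ G ∈ Fam en (ofLex β).1 (x '' Iio β), IsOpen G → Dense G →
      (∀ y ∈ G, ∀ z : K, (∀ c ∈ low (ofLex β).1, z c = y c) → z ∈ G) → x β ∈ G := fun β => by
    rw [hx β]; exact s1 _ _ _ _ _ (Famc en (ofLex β).1 ((ci β).image x))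
  have x2 : ∀ β, ∀ c ∈ (lb β).1.1, c ∈ low (ofLex β).1 → x β c = decide (c ∈ (lb β).1.2) :=
    fun β => hx β ▸ s2 _ _ _ _ _
  have x3 : ∀ β α, (ofLex β).1 ≤ α → x β (.inr α) = col β α := fun β => hx β ▸ s3 _ _ _ _ _
  have xi : Injective x := by
    have : ∀ β γ, γ < β → x β ≠ x γ := fun β γ l k => x1 β _ (.inr ⟨_, ⟨γ, l, rfl⟩, rfl⟩)
      (isClosed_eq (by fun_prop) continuous_const).isOpen_compl
      (dense_iff_inter_open.2 fun W w1 ⟨y, hy⟩ => by
        obtain ⟨u, hu⟩ := bas w1 hy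
        obtain ⟨m, hm⟩ := (u.finite_toSet.preimage Sum.inl_injective.injOn).exists_notMem
        exact ⟨update y (.inl m) (!x γ (.inl m)), hu _ fun c hc => update_of_ne
          (fun k => hm (by rw [mem_preimage, ← k]; exact hc)) _ _,
          fun k => by simpa using congrFun k m⟩)
      (fun y hy z hz k => hy (funext fun m => (hz (.inl m) trivial).symm.trans (congrFun k m)))
      (by rw [k])
    exact fun β γ k => by_contra fun l =>
      (lt_or_gt_of_ne l).elim (fun m => this _ _ m k.symm) fun m => this _ _ m k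
  have blk : ∀ δ, Dense (range fun n : ℕ => x (toLex (δ, n))) := fun δ =>
    dense_iff_inter_open.2 fun W w1 ⟨y, hy⟩ => by
      obtain ⟨u, hu⟩ := bas w1 hy
      let s := u.toRight
      obtain ⟨c, hc⟩ := hdc s fun α => y (.inr α)
      have : ∀ α, ∃ z : ℕ → Bool, Va (tk α).1 → ∀ m, {n | .inl m ∈ (lb ((tk α).1 n)).1.1 ∧
          decide (.inl m ∈ (lb ((tk α).1 n)).1.2) ≠ z m}.Finite := fun α => by
        by_cases k : Va (tk α).1
        · exact k.imp fun z hz _ => hz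
        · exact ⟨fun _ => true, fun l => (k l).elim⟩
      choose z hz using this
      obtain ⟨f, hf⟩ := Countable.exists_injective_nat s
      let m : s → ℕ := fun α => u.toLeft.sup id + 1 + f α
      have mi : Injective m := fun a b k => hf (Nat.add_left_cancel k)
      let y' : K := extend (fun α => Sum.inl (m α)) (fun α => !z α (m α)) y
      let u' : Finset Co := u.filter (· ∈ low δ) ∪ Finset.univ.image fun α => .inl (m α)
      have ul : ↑u' ⊆ low δ := fun c hc => by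
        simp only [u', Finset.coe_union, mem_union, Finset.mem_coe, Finset.mem_filter,
          Finset.mem_image] at hc
        rcases hc with k | ⟨α, -, rfl⟩
        exacts [k.2, trivial]
      obtain ⟨n, n1, n2⟩ := (hl δ ((u', u'.filter (y' ·)), c, false) ul
        ((Finset.coe_subset.2 (Finset.filter_subset _ _)).trans ul)).exists_notMem_finite
        (finite_iUnion fun α : s => ((toFinite {_p : Unit | Va (tk α).1}).biUnion fun _ k =>
          (hz α k (m α)).image fun n => (ofLex ((tk α).1 n)).2))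
      have n3 : lb (toLex (δ, n)) = ((u', u'.filter (y' ·)), c, false) := n1
      refine ⟨x (toLex (δ, n)), hu _ fun d hd => ?_, n, rfl⟩
      by_cases l : d ∈ low δ
      · have l1 : d ∈ u' := by simp [u', hd, l]
        rw [x2 (toLex (δ, n)) d (by rw [n3]; exact l1) l, n3]
        simp only [Finset.mem_filter, l1, true_and, Bool.decide_eq_true, y']
        refine extend_apply' _ _ _ ?_
        rintro ⟨α, rfl⟩
        have := Finset.le_sup (f := id) (Finset.mem_toLeft.2 hd)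
        simp only [m, id] at this
        omega
      · obtain d | α := d
        · exact (l trivial).elim
        have l1 : α ∈ s := Finset.mem_toRight.2 hd
        rw [x3 (toLex (δ, n)) α (not_lt.1 l), ← hc α l1]
        simp only [col, n3, Bool.false_eq_true, if_false]
        refine if_neg fun ⟨k1, j, k2⟩ => n2 (mem_iUnion.2 ⟨⟨α, l1⟩, mem_biUnion (x := ()) k1
          ⟨j, ?_, by simp [k2]⟩⟩)
        have l2 : Sum.inl (m ⟨α, l1⟩) ∈ u' := by simp [u']
        simp only [mem_setOf_eq, k2, n3, l2, true_and, Finset.mem_filter, Bool.decide_eq_true, y']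
        rw [Injective.extend_apply (f := fun α => Sum.inl (m α)) (Sum.inl_injective.comp mi)]
        simp
  haveI : SeparableSpace K := (bnd countable_empty).elim fun δ _ => ⟨⟨_, countable_range _, blk δ⟩⟩
  have lp : ∀ δ (y : K) (u : Finset Co), ↑u ⊆ low δ → ∃ p ∈ range x, (∀ c ∈ u, p c = y c) ∧
      ∀ α, δ ≤ α → p (.inr α) = false := fun δ y u hu => by
    obtain ⟨n, hn⟩ := (hl δ ((u, u.filter (y ·)), (0, ∅), true) hu
      ((Finset.coe_subset.2 (Finset.filter_subset _ _)).trans hu)).nonempty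
    have n3 : lb (toLex (δ, n)) = ((u, u.filter (y ·)), (0, ∅), true) := hn
    refine ⟨_, ⟨toLex (δ, n), rfl⟩, fun c hc => ?_, fun α hα => ?_⟩
    · rw [x2 (toLex (δ, n)) c (by rw [n3]; exact hc) (hu hc), n3]; simp [hc]
    · rw [x3 (toLex (δ, n)) α hα]; simp [col, n3]
  refine ⟨range x, fun C hC => ?_, fun k => by simpa using SL en.surjective x1 (Finset.range k),
    fun p p1 p2 => ?_, fun α => ?_⟩
  · obtain ⟨δ, hδ⟩ := bnd ((hC.preimage xi).image fun γ => (ofLex γ).1)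
    refine ⟨_, ?_, countable_range _, blk δ⟩
    rintro _ ⟨n, rfl⟩
    exact ⟨⟨_, rfl⟩, fun k => (hδ _ ⟨_, k, rfl⟩).false⟩
  · choose a ha using p1
    by_cases k : (lb (a 0)).2.2
    · refine .inl ((cI (ofLex (a 0)).1).mono fun α hα => mem_Iic.2 (le_of_not_ge fun l => ?_))
      rw [mem_setOf_eq, ← ha, x3 _ _ l] at hα
      simp [col, k] at hα
    obtain ⟨δ, hδ⟩ := bnd (countable_range fun n => (ofLex (a n)).1)
    obtain ⟨α, ⟨η, rfl⟩, hα⟩ : ∃ α ∈ range fun η => tk.symm (a, η), δ ≤ α := by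
      by_contra! l
      obtain ⟨η, hη⟩ := bnd (((cI δ).mono fun α k => (l α k).le).preimage
        (f := fun η => tk.symm (a, η)) fun _ _ k => by simpa using k)
      exact (hη η ⟨η, rfl⟩).false
    have va : Va a := ⟨fun m => p 0 (.inl m), fun m => (finite_Iic (m + 1)).subset fun n hn => by
      by_contra l
      obtain ⟨n, rfl⟩ := Nat.exists_eq_succ_of_ne_zero (n := n) (by rintro rfl; simp at l)
      refine hn.2 ?_
      rw [← x2 _ _ hn.1 trivial, ha]
      exact (p2 n).1 m (by simp at l; omega)⟩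
    have e : ∀ n, p n (.inr (tk.symm (a, η))) = if (lb (a n)).2.2 then false else decide (a n = a 0) :=
      fun n => by
        rw [← ha, x3 _ _ ((hδ _ ⟨n, rfl⟩).le.trans hα)]
        simp [col, va]
    refine .inr ⟨tk.symm (a, η), by simp [e, k], fun n => ?_⟩
    have : a (n + 1) ≠ a 0 := fun l => (p2 n).2 (by rw [← ha, ← ha, l])
    simp [e, this]
  · obtain ⟨δ, hδ⟩ := bnd (countable_singleton α)
    obtain ⟨y, y1, y2, y3⟩ := lp δ (fun _ => true) {.inr α} (by simpa [low] using hδ)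
    obtain ⟨f, hf⟩ := ((cI δ).mono (Iio_subset_Iic_self (a := δ))).exists_eq_range ⟨α, hδ α rfl⟩
    choose q q1 q2 q3 using fun n => lp δ (update y (.inl n) (!y (.inl n)))
      ((Finset.range (n + 1)).image .inl ∪ (Finset.range n).image fun j => .inr (f j)) (by
        simp only [Finset.coe_union, Finset.coe_image, union_subset_iff, image_subset_iff]
        exact ⟨fun _ _ => trivial, fun j _ => hf.ge ⟨j, rfl⟩⟩)
    have q4 : ∀ n, ∀ m < n, q n (.inl m) = y (.inl m) := fun n m l => by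
      rw [q2 n _ (by simp; omega), update_of_ne (by simpa using l.ne)]
    refine ⟨fun n => n.casesOn y q, fun n => n.casesOn y1 q1, fun n => ⟨q4 n, ?_⟩,
      y2 _ (by simp), (tendsto_add_atTop_iff_nat 1).1 (tendsto_pi_nhds.2 fun c =>
        tendsto_const_nhds.congr' (eventually_atTop.2 ?_))⟩
    · simp [q2 n (.inl n) (by simp)]
    · obtain m | β := c
      · exact ⟨m + 1, fun n hn => (q4 n m hn).symm⟩
      · rcases lt_or_ge β δ with l | l
        · obtain ⟨j, rfl⟩ := hf.le l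
          exact ⟨j + 1, fun n hn => by
            simp [q2 n (.inr (f j)) (by simp; exact ⟨j, hn, rfl⟩)]⟩
        · exact ⟨0, fun n _ => by simp [q3 n β l, y3 β l]⟩

end Pool.Agent.H.MP_44eb6b_gt.C
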