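import Pool.Agent.H.MP_44eb6b_gt.B
import Pool.Agent.H.MP_44eb6b_gt.C

namespace Pool.Agent.H.MP_44eb6b_gt.D

open Set Function Topology Filter TopologicalSpace Cardinal Pool.Agent.H.MP_44eb6b_gt.A
open Pool.Agent.H.MP_44eb6b_gt.B Pool.Agent.H.MP_44eb6b_gt.C

theorem hl {K : Type} [TopologicalSpace K] [Nonempty K] {X : Set K}
    (h1 : ∀ C : Set K, C.Countable → ∃ E ⊆ X \ C, E.Countable ∧ Dense E)
    (h2 : ∀ k, ∀ U : Set (ℕ → K), IsOpen U → Dense U → Cyl (Iio k) U →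
      ∃ C : Set K, C.Countable ∧ ∀ b, Gen X (Iio k) C b → b ∈ U)
    {ι : Type} (W : ι → Set (ℕ → K)) (k : ℕ) (w1 : ∀ j, IsOpen (W j)) (w2 : ∀ j, Cyl (Iio k) (W j)) :
    ∃ c : Set ι, c.Countable ∧ ∀ a : ℕ → K, (∀ i, a i ∈ X) → ∀ j, a ∈ W j → ∃ j ∈ c, a ∈ W j := by
  classical
  haveI : SeparableSpace K := (h1 ∅ countable_empty).elim fun E h => ⟨⟨E, h.2⟩⟩
  obtain ⟨S, s1, s2⟩ := exists_countable_dense (ℕ → K)
  have key : ∀ l : List (K ⊕ ℕ), ∃ c : Set ι, c.Countable ∧ ∃ C : Set K, C.Countable ∧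
      (Val X l → l.length = k → ∀ b, Gen X (Iio k) C b → ∀ j, ev l b ∈ W j →
        ∃ j ∈ c, ev l b ∈ W j) := fun l => by
    by_cases h : Val X l ∧ l.length = k
    swap
    · exact ⟨∅, countable_empty, ∅, countable_empty, fun a b => (h ⟨a, b⟩).elim⟩
    obtain ⟨h, rfl⟩ := h
    have e : ∀ j, Cyl (Iio l.length) (ev l ⁻¹' W j) := fun j b hb d hd =>
      w2 j _ hb _ fun i hi => by rw [← ev1 h hd [] hi, List.append_nil]
    have o : ∀ j, IsOpen (ev l ⁻¹' W j) := fun j => (w1 j).preimage (evc l)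
    haveI := (s1.mono (sep_subset S fun d => ∃ j, ev l d ∈ W j)).to_subtype
    choose g hg using fun d : {d ∈ S | ∃ j, ev l d ∈ W j} => d.2.2
    obtain ⟨C, c1, c2⟩ := h2 l.length ((⋃ d, ev l ⁻¹' W (g d)) ∪ (closure (⋃ j, ev l ⁻¹' W j))ᶜ)
      ((isOpen_iUnion fun d => o _).union isClosed_closure.isOpen_compl) (fun x => by
        by_cases m : x ∈ closure (⋃ j, ev l ⁻¹' W j)
        · refine closure_mono subset_union_left (closure_minimal ((s2.open_subset_closure_inter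
            (isOpen_iUnion o)).trans (closure_mono fun d hd => ?_)) isClosed_closure m)
          exact mem_iUnion.2 ⟨⟨d, hd.2, by simpa using hd.1⟩, hg _⟩
        · exact subset_closure (.inr m)) fun b hb d hd => hb.imp
          (fun m => (mem_iUnion.1 m).elim fun j n => mem_iUnion.2 ⟨j, e _ b n d hd⟩)
          (Cyl.compl (Cyl.closure fun b m d hd =>
            (mem_iUnion.1 m).elim fun j n => mem_iUnion.2 ⟨j, e _ b n d hd⟩) b · d hd)
    refine ⟨range g, countable_range g, C, c1, fun _ _ b hb j hj => ?_⟩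
    obtain ⟨d, hd⟩ := mem_iUnion.1 ((c2 b hb).resolve_right fun m =>
      m (subset_closure (mem_iUnion.2 ⟨j, hj⟩)))
    exact ⟨_, ⟨d, rfl⟩, hd⟩
  choose c c1 C c2 c3 using key
  obtain ⟨T, t1, t2, t3⟩ := clo (fun l => Sum.inl '' C l) (fun l => (c2 l).image _)
    (countable_range (Sum.inr : ℕ → K ⊕ ℕ))
  refine ⟨⋃ l ∈ {l : List (K ⊕ ℕ) | ∀ d ∈ l, d ∈ T}, c l, (cl t2).biUnion fun l _ => c1 l,
    fun a ha j hj => ?_⟩
  obtain ⟨l, b, l0, l1, l2, l3, l4⟩ : ∃ l b, l.length = k ∧ (∀ d ∈ l, d ∈ T) ∧ Val X l ∧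
      Gen X (Iio l.length) (Sum.inl ⁻¹' T) b ∧ ∀ i < l.length, a i = ev l b i := by
    clear w2 c3
    induction k with
    | zero => exact ⟨[], a, rfl, by simp, by simp [Val], by simp [Gen], by simp⟩
    | succ k ih =>
      obtain ⟨l, b, rfl, l1, l2, l3, l4⟩ := ih
      obtain ⟨d, x, k1, k2, k3⟩ := step (fun D hD => by
        obtain ⟨E, e1, -, e2⟩ := h1 _ ((t2.preimage Sum.inl_injective).union hD.countable)
        obtain ⟨x, hx⟩ := e2.nonempty
        exact ⟨x, (e1 hx).1, fun k => (e1 hx).2 (.inl k), fun k => (e1 hx).2 (.inr k)⟩) l2 ha l3 l4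
      refine ⟨l ++ [d], _, by simp, ?_, l2.up ?_, by simpa using k2, by simpa using k3⟩
      · simp only [List.mem_append, List.mem_singleton]
        rintro e (h | rfl)
        · exact l1 e h
        · cases e
          · exact k1.2
          · exact t1 ⟨_, rfl⟩
      · cases d
        · exact k1.1
        · exact k1
  subst l0
  obtain ⟨i, i1, i2⟩ := c3 l l2 rfl b ⟨l3.1, fun i hi => ⟨(l3.2 i hi).1, fun m =>
    (l3.2 i hi).2 (t3 l l1 ⟨_, m, rfl⟩)⟩⟩ j (w2 j a hj _ fun i hi => (l4 i hi).symm)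
  exact ⟨i, mem_biUnion l1 i1, w2 i _ i2 a l4⟩

theorem main (h : continuum.{0} = aleph 1) : ∃ (X : Type) (_ : TopologicalSpace X), T35Space X ∧
    (∀ S : Set (X → ℝ), (∀ f ∈ S, Continuous f) → ∃ D ⊆ S, D.Countable ∧ S ⊆ closure D) ∧
    ∀ D : Set (X → ℝ), (∀ f ∈ D, Continuous f) → D.Countable → ∃ f : X → ℝ, Continuous f ∧
      ∀ u : ℕ → X → ℝ, (∀ n, u n ∈ D) → ¬ Tendsto u atTop (𝓝 f) := by
  classical
  obtain ⟨X, h1, h2, -⟩ := exX h
  obtain ⟨E, e1, e2, e3⟩ := h1 ∅ countable_empty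
  have hV : ∀ (f : X → ℝ) (B : Set ℝ), ∃ V : Set K, Continuous f → IsOpen B →
      IsOpen V ∧ ∀ x : X, x.1 ∈ V ↔ f x ∈ B := fun f B => by
    by_cases k : Continuous f ∧ IsOpen B
    · obtain ⟨V, v1, v2⟩ := isOpen_induced_iff.1 (k.2.preimage k.1)
      exact ⟨V, fun _ _ => ⟨v1, Set.ext_iff.1 v2⟩⟩
    · exact ⟨∅, fun a b => (k ⟨a, b⟩).elim⟩
  choose V hV using hV
  refine ⟨X, inferInstance, inferInstance, fun S hS => ?_, fun D d1 d2 => ?_⟩
  · choose c c1 c2 using fun q : Σ k, Fin k → countableBasis ℝ => hl h1 h2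
      (fun f : S => {b | ∀ i : Fin q.1, b i ∈ V f (q.2 i)}) q.1 (fun f => by
        simp only [setOf_forall]
        exact isOpen_iInter_of_finite fun i => (hV _ _ (hS _ f.2)
          (isOpen_of_mem_countableBasis (q.2 i).2)).1.preimage (continuous_apply _))
      fun f b hb d hd i => hd i i.2 ▸ hb i
    refine ⟨Subtype.val '' ⋃ q, c q, by rintro _ ⟨f, -, rfl⟩; exact f.2,
      (countable_iUnion c1).image _, fun f hf => mem_closure_iff.2 fun U u1 u2 => ?_⟩
    obtain ⟨I, u, i1, i2⟩ := isOpen_pi_iff.1 u1 f u2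
    obtain ⟨x0, hx⟩ := e3.nonempty
    let a : ℕ → X := fun i => if h : i < I.card then I.equivFin.symm ⟨i, h⟩ else ⟨x0, (e1 hx).1⟩
    choose B b1 b2 b3 using fun x : I =>
      (isBasis_countableBasis ℝ).exists_subset_of_mem_open (i1 x x.2).2 (i1 x x.2).1
    obtain ⟨g, g1, g2⟩ := c2 ⟨I.card, fun i => ⟨B (I.equivFin.symm i), b1 _⟩⟩ (fun i => a i)
      (fun i => (a i).2) ⟨f, hf⟩ fun i => (hV _ _ (hS f hf)
        (isOpen_of_mem_countableBasis (b1 _))).2 _ |>.2 (by simpa [a] using b2 _)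
    refine ⟨g, i2 fun x hx => b3 ⟨x, hx⟩ ?_, g, mem_iUnion.2 ⟨_, g1⟩, rfl⟩
    simpa [a] using ((hV _ _ (hS _ g.2) (isOpen_of_mem_countableBasis (b1 _))).2 _).1
      (g2 (I.equivFin ⟨x, hx⟩))
  · have o := fun f hf => hV f (Iio (1 / 2)) (d1 f hf) isOpen_Iio
    haveI := d2.to_subtype
    haveI := e2.to_subtype
    have : ∀ q : D × E, ∃ u : Finset Co, q.2.1 ∈ V q.1 (Iio (1 / 2)) →
        ∀ y : K, (∀ c ∈ u, y c = q.2.1 c) → y ∈ V q.1 (Iio (1 / 2)) := fun q => by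
      by_cases k : q.2.1 ∈ V q.1 (Iio (1 / 2))
      · exact (bas (o _ q.1.2).1 k).imp fun u hu _ => hu
      · exact ⟨∅, fun l => (k l).elim⟩
    choose s hs using this
    obtain ⟨α, hα⟩ := bnd ((countable_iUnion fun q => (s q).countable_toSet).preimage
      Sum.inr_injective)
    have pc : Continuous fun x : K => if x (.inr α) then (1 : ℝ) else 0 :=
      (continuous_of_discreteTopology (f := fun t : Bool => if t then (1 : ℝ) else 0)).comp
        (continuous_apply _)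
    refine ⟨_, pc.comp continuous_subtype_val, fun u hu k => ?_⟩
    have k1 := tendsto_pi_nhds.1 k
    have dn : ∀ N, Dense (⋃ n ≥ N, V (u n) (Iio (1 / 2))) := fun N =>
      dense_iff_inter_open.2 fun W w1 ⟨w, hw⟩ => by
        have o1 : IsOpen ((fun z : K => update z (.inr α) (w (.inr α))) ⁻¹' W ∩
            {z | z (.inr α) = false}) := (w1.preimage (continuous_id.update _ continuous_const)).inter
          ((isOpen_discrete {false}).preimage (f := fun z : K => z (.inr α)) (continuous_apply _))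
        obtain ⟨x, x1, x2⟩ := e3.inter_open_nonempty _ o1 ⟨update w (.inr α) false, by simpa⟩
        obtain ⟨n, n1, n2⟩ := (((k1 ⟨x, (e1 x2).1⟩).eventually (gt_mem_nhds (a := 1 / 2)
          (by simp [show x (.inr α) = false from x1.2]))).and (eventually_ge_atTop N)).exists
        have x3 : x ∈ V (u n) (Iio (1 / 2)) := ((o _ (hu n)).2 ⟨x, (e1 x2).1⟩).2 n1
        refine ⟨_, x1.1, mem_biUnion n2 (hs (⟨_, hu n⟩, ⟨x, x2⟩) x3 _ fun c hc => update_of_ne ?_ _ _)⟩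
        rintro rfl
        exact (hα α (mem_iUnion.2 ⟨_, hc⟩)).false
    choose C c1 c2 using fun N => h2 1 {b | b 0 ∈ ⋃ n ≥ N, V (u n) (Iio (1 / 2))}
      (IsOpen.preimage (f := fun b : ℕ → K => b 0) (continuous_apply 0)
        (isOpen_iUnion fun n => isOpen_iUnion fun _ => (o _ (hu n)).1))
      ((dn N).preimage (isOpenMap_eval 0)) fun b hb d hd => by
        rw [mem_setOf_eq, hd 0 (by simp)]; exact hb
    obtain ⟨G, g1, -, g2⟩ := h1 _ (countable_iUnion c1)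
    obtain ⟨x, x1, x2⟩ := g2.inter_open_nonempty {z : K | z (.inr α) = true}
      ((isOpen_discrete {true}).preimage (f := fun z : K => z (.inr α)) (continuous_apply _)) ⟨fun _ => true, rfl⟩
    obtain ⟨N, hN⟩ := eventually_atTop.1 ((k1 ⟨x, (g1 x2).1⟩).eventually (lt_mem_nhds (a := 1 / 2)
      (by simp [show x (.inr α) = true from x1]; norm_num)))
    obtain ⟨n, n1, n2⟩ := mem_iUnion₂.1 (c2 N (fun _ => x) ⟨fun i hi j hj _ => by simp at hi hj; omega,
      fun _ _ => ⟨(g1 x2).1, fun m => (g1 x2).2 (mem_iUnion.2 ⟨N, m⟩)⟩⟩)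
    exact (hN n n1).not_gt (((o _ (hu n)).2 ⟨x, (g1 x2).1⟩).1 n2)

end Pool.Agent.H.MP_44eb6b_gt.D
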